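import Pool.Agent.K1H80.KA.StmC

/-! Piece KC-GEN of the project KA: the matrix of variables is generic. -/

set_option autoImplicit false

namespace Pool.Agent.K1H10.KA

open MvPolynomial Pool.Agent.KA

theorem gen : GENStm := by
  classical
  intro F V W _
  have inj : ∀ P : MvPolynomial (V × W) F, P ≠ 0 →
      algebraMap (MvPolynomial (V × W) F) (FractionRing (MvPolynomial (V × W) F)) P ≠ 0 := by
    intro P hP h0
    exact hP (IsFractionRing.injective (MvPolynomial (V × W) F)
      (FractionRing (MvPolynomial (V × W) F)) (h0.trans (map_zero _).symm))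
  refine ⟨fun i k => inj _ (X_ne_zero _), ?_, ?_⟩
  · intro i j k l hij hkl
    rw [← map_mul, ← map_mul, ← map_sub]
    apply inj
    intro h
    have h1 := congrArg (MvPolynomial.eval (fun q : V × W =>
      if q = (i, k) ∨ q = (j, l) then (1 : F) else 0)) h
    rw [map_sub, map_mul, map_mul, map_zero, eval_X, eval_X, eval_X, eval_X] at h1
    have e1 : ¬ ((i, l) = (i, k) ∨ (i, l) = (j, l)) := by
      simp only [Prod.mk.injEq, not_or, not_and]
      exact ⟨fun _ h => hkl h.symm, fun h => absurd h hij⟩
    rw [if_pos (Or.inl rfl), if_pos (Or.inr rfl), if_neg e1] at h1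
    simp at h1
  · intro a b ha hb
    have h0 : (Matrix.of fun s t : Fin 3 =>
        algebraMap (MvPolynomial (V × W) F) (FractionRing (MvPolynomial (V × W) F))
          (X (a s, b t))) =
        (algebraMap (MvPolynomial (V × W) F) (FractionRing (MvPolynomial (V × W) F))).mapMatrix
          (Matrix.of fun s t : Fin 3 => (X (a s, b t) : MvPolynomial (V × W) F)) := by
      ext s t
      rfl
    rw [h0, ← RingHom.map_det]
    apply inj
    intro h
    have h1 := congrArg (MvPolynomial.eval (fun q : V × W =>
      if ∃ s, q = (a s, b s) then (1 : F) else 0)) h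
    rw [map_zero, RingHom.map_det] at h1
    have h2 : (MvPolynomial.eval (fun q : V × W =>
        if ∃ s, q = (a s, b s) then (1 : F) else 0)).mapMatrix
          (Matrix.of fun s t : Fin 3 => (X (a s, b t) : MvPolynomial (V × W) F)) = 1 := by
      ext s t
      rw [RingHom.mapMatrix_apply, Matrix.map_apply, Matrix.of_apply, eval_X, Matrix.one_apply]
      by_cases hst : s = t
      · subst hst
        rw [if_pos ⟨s, rfl⟩, if_pos rfl]
      · rw [if_neg hst, if_neg]
        rintro ⟨r, hr⟩
        rw [Prod.mk.injEq] at hr
        exact hst ((ha hr.1).trans (hb hr.2).symm)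
    rw [h2, Matrix.det_one] at h1
    exact one_ne_zero h1

end Pool.Agent.K1H10.KA
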