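import Pool.Agent.K1H80.KA.Stm

/-! Piece JAC of the project KA: the Jacobian criterion in characteristic zero. -/

set_option autoImplicit false

namespace Pool.Agent.K1H10.KA

open MvPolynomial Pool.Agent.KA

theorem chain {K τ ι : Type} [Field K] [Fintype ι] (g : ι → MvPolynomial τ K) (s : τ)
    (P : MvPolynomial ι K) :
    pderiv s (aeval g P) = ∑ i, aeval g (pderiv i P) * pderiv s (g i) := by
  classical
  induction P using MvPolynomial.induction_on with
  | C a =>
    rw [MvPolynomial.aeval_C]
    simp [MvPolynomial.algebraMap_eq]
  | add p q hp hq =>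
    rw [map_add, map_add, hp, hq, ← Finset.sum_add_distrib]
    refine Finset.sum_congr rfl fun i _ => ?_
    rw [map_add, map_add, add_mul]
  | mul_X p j hp =>
    rw [map_mul, aeval_X, pderiv_mul, hp]
    have h : ∀ i, aeval g (pderiv i (p * X j)) * pderiv s (g i) =
        aeval g (pderiv i p) * pderiv s (g i) * g j +
          (if i = j then aeval g p * pderiv s (g j) else 0) := by
      intro i
      rw [pderiv_mul, map_add, map_mul, map_mul, aeval_X, pderiv_X]
      by_cases hij : i = j
      · subst hij
        simp
        ring
      · rw [if_neg hij, Pi.single_eq_of_ne (Ne.symm hij)]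
        simp
        ring
    rw [Finset.sum_congr rfl fun i _ => h i, Finset.sum_add_distrib, Finset.sum_ite_eq' Finset.univ j,
      if_pos (Finset.mem_univ _), Finset.sum_mul]

theorem deg_pderiv {K ι : Type} [Field K] (P : MvPolynomial ι K) (i : ι) (h : pderiv i P ≠ 0) :
    (pderiv i P).totalDegree < P.totalDegree := by
  have key : ∀ m ∈ (pderiv i P).support, m.degree + 1 ≤ P.totalDegree := by
    intro m hm
    rw [mem_support_iff, coeff_pderiv] at hm
    have h1 : m + Finsupp.single i 1 ∈ P.support := by
      rw [mem_support_iff]
      intro h0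
      rw [h0, zero_mul] at hm
      exact hm rfl
    have h2 := le_totalDegree h1
    have h3 : ((m + Finsupp.single i 1).sum fun _ e => e) = m.degree + 1 := by
      have h4 : ((m + Finsupp.single i 1).sum fun _ e => e) = (m + Finsupp.single i 1).degree := rfl
      rw [h4, map_add, Finsupp.degree_single]
    rw [h3] at h2
    exact h2
  obtain ⟨m0, hm0⟩ := ne_zero_iff.1 h
  have h0 := key m0 (mem_support_iff.2 hm0)
  have h1 : (pderiv i P).totalDegree ≤ P.totalDegree - 1 := by
    rw [totalDegree]
    refine Finset.sup_le fun m hm => ?_
    have h2 := key m hm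
    have h4 : (m.sum fun _ e => e) = m.degree := rfl
    rw [h4]
    omega
  omega

theorem const_of_pderiv {K ι : Type} [Field K] [CharZero K] (P : MvPolynomial ι K)
    (h : ∀ i, pderiv i P = 0) : P = C (coeff 0 P) := by
  classical
  ext m
  rw [coeff_C]
  by_cases hm : 0 = m
  · rw [if_pos hm, hm]
  · rw [if_neg hm]
    obtain ⟨i, hi⟩ : ∃ i, m i ≠ 0 := by
      by_contra hcon
      push Not at hcon
      exact hm (Finsupp.ext fun i => (hcon i).symm)
    have h1 : m = (m - Finsupp.single i 1) + Finsupp.single i 1 := by
      refine (tsub_add_cancel_of_le ?_).symm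
      rw [Finsupp.single_le_iff]
      omega
    have h2 := coeff_pderiv (i := i) P (m - Finsupp.single i 1)
    rw [h i, coeff_zero, ← h1] at h2
    rcases mul_eq_zero.1 h2.symm with h3 | h3
    · exact h3
    · exfalso
      exact Nat.cast_add_one_ne_zero _ h3

theorem jac : JACStm := by
  intro K _ _ τ ι _ _ g hg
  classical
  have := Fintype.ofFinite ι
  rw [algebraicIndependent_iff]
  rw [Fintype.linearIndependent_iff] at hg
  have key : ∀ (d : ℕ) (P : MvPolynomial ι K), P.totalDegree = d → aeval g P = 0 → P = 0 := by
    intro d
    induction d using Nat.strong_induction_on with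
    | _ d ih =>
      intro P hd hP
      have h1 : ∀ i, aeval g (pderiv i P) = 0 := by
        have h2 := hg (fun i => algebraMap (MvPolynomial τ K) (FractionRing (MvPolynomial τ K))
          (aeval g (pderiv i P))) (by
            funext s
            rw [Finset.sum_apply]
            simp only [Pi.smul_apply, smul_eq_mul, Pi.zero_apply]
            simp only [← map_mul]
            rw [← map_sum, ← chain, hP, map_zero, map_zero])
        intro i
        exact (IsFractionRing.injective (MvPolynomial τ K) (FractionRing (MvPolynomial τ K)))
          ((h2 i).trans (map_zero _).symm)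
      have h3 : ∀ i, pderiv i P = 0 := by
        intro i
        by_contra hne
        exact hne (ih _ (hd ▸ deg_pderiv P i hne) _ rfl (h1 i))
      have h4 := const_of_pderiv P h3
      rw [h4, aeval_C] at hP
      have h5 : coeff 0 P = 0 := by
        have := (algebraMap K (MvPolynomial τ K)).injective (hP.trans (map_zero _).symm)
        exact this
      rw [h4, h5, map_zero]
  exact fun P hP => key _ P rfl hP

end Pool.Agent.K1H10.KA
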